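import Pool.Agent.Lib.MP_5d599c_lc.Gen.Fourier

set_option autoImplicit false

open MeasureTheory

namespace Pool.Agent.Results.MP_5d599c_lc.AllGroups

open scoped Classical in
section

variable {N : ℕ} {Y : Type*} [AddCommGroup Y] [Fintype Y]

/-- The character `x ↦ χ_1(x_1) ⋯ χ_N(x_N)` of `Y^N`. -/
noncomputable def chr (χ : Fin N → AddChar Y ℂ) (x : Fin N → Y) : ℂ := ∏ i, χ i (x i)

/-- The Fourier coefficient of `f` at `χ`: the average of `f` times the conjugate of `χ`. -/
noncomputable def coeff (f : (Fin N → Y) → ℂ) (χ : Fin N → AddChar Y ℂ) : ℂ :=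
  (∑ x, f x * star (chr χ x)) / (Fintype.card Y : ℂ) ^ N

/-- `deg f ≤ d`: every character with nonzero Fourier coefficient is nontrivial in at most `d`
coordinates. -/
def DegLE (f : (Fin N → Y) → ℂ) (d : ℕ) : Prop :=
  ∀ χ : Fin N → AddChar Y ℂ, coeff f χ ≠ 0 → {i | χ i ≠ 1}.ncard ≤ d

/-- The squared norm `‖f‖_2^2`, the average of `|f|^2`. -/
noncomputable def normSq (f : (Fin N → Y) → ℂ) : ℝ :=
  (∑ x, ‖f x‖ ^ 2) / (Fintype.card Y : ℝ) ^ N

/-- The influence of coordinate `i`: the sum of the squares of the absolute values of the Fourier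
coefficients at the characters whose `i`-th coordinate is nontrivial. -/
noncomputable def influence (i : Fin N) (f : (Fin N → Y) → ℂ) : ℝ :=
  ∑ χ : Fin N → AddChar Y ℂ with χ i ≠ 1, ‖coeff f χ‖ ^ 2

end

/-- **The polynomial compatibility conjecture holds for every finite abelian group**, with
`δ(d) = 1 / (1024 d^8)` for all groups at once, and for arbitrary Borel probability measures on
the space of functions `Y^N → ℂ`. -/
theorem result (Y : Type*) [AddCommGroup Y] [Fintype Y] (d N : ℕ) (hd : 1 ≤ d)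
    (F G : Measure ((Fin N → Y) → ℂ)) [IsProbabilityMeasure F] [IsProbabilityMeasure G]
    (hnorm : ∀ f ∈ F.support ∪ G.support, normSq f = 1)
    (hdeg : ∀ f ∈ F.support ∪ G.support, DegLE f d)
    (hF : ∀ i : Fin N, ∫ f, influence i f ∂F ≤ 1 / (1024 * (d : ℝ) ^ 8))
    (hG : ∀ i : Fin N, ∫ g, influence i g ∂G ≤ 1 / (1024 * (d : ℝ) ^ 8)) :
    ∃ f ∈ F.support, ∃ g ∈ G.support, ∃ x, f x * g x ≠ 0 := by
  classical
  have hcard : (Fintype.card (Fin N → Y) : ℝ) = (Fintype.card Y : ℝ) ^ N := by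
    rw [Fintype.card_fun]
    simp
  have hY : (Fintype.card Y : ℂ) ≠ 0 := by exact_mod_cast Fintype.card_ne_zero
  have hn : ∀ f ∈ F.support ∪ G.support,
      Lib.MP_5d599c_lc.Gen.avg (fun x => ‖f x‖ ^ 2) = 1 := by
    intro f hf
    unfold Lib.MP_5d599c_lc.Gen.avg
    rw [hcard]
    exact hnorm f hf
  have hl : ∀ f ∈ F.support ∪ G.support, Lib.MP_5d599c_lc.Gen.LowDeg (d + 1) f := by
    intro f hf
    refine Lib.MP_5d599c_lc.Gen.lowDeg_of_fourier f (fun χ hχ => ?_)
    by_contra hne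
    refine absurd (hdeg f hf χ ?_) (not_le.2 hχ)
    unfold coeff
    exact div_ne_zero hne (pow_ne_zero _ hY)
  have hinf : ∀ (i : Fin N) (f : (Fin N → Y) → ℂ),
      influence i f = (1 / 2) * Lib.MP_5d599c_lc.Gen.dInf i f := by
    intro i f
    rw [← Lib.MP_5d599c_lc.Gen.influence_eq f i]
    unfold influence
    refine Finset.sum_congr ?_ (fun χ _ => rfl)
    ext χ
    simp
  have hi : ∀ (μ : Measure ((Fin N → Y) → ℂ)),
      (∀ i : Fin N, ∫ f, influence i f ∂μ ≤ 1 / (1024 * (d : ℝ) ^ 8)) →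
      ∀ i : Fin N, ∫ f, Lib.MP_5d599c_lc.Gen.dInf i f ∂μ ≤ 2 * (1 / (1024 * (d : ℝ) ^ 8)) := by
    intro μ hμ i
    have h1 := hμ i
    simp only [hinf] at h1
    rw [integral_const_mul] at h1
    linarith
  exact Lib.MP_5d599c_lc.Gen.compat_core hd F G F.support G.support
    Measure.support_mem_ae Measure.support_mem_ae
    (fun f hf => hn f (Or.inl hf)) (fun g hg => hn g (Or.inr hg))
    (fun f hf => hl f (Or.inl hf)) (fun g hg => hl g (Or.inr hg)) (hi F hF) (hi G hG)

end Pool.Agent.Results.MP_5d599c_lc.AllGroups
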